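import Pool.Agent.Helper54.KA.LiteS
import Pool.Agent.Helper54.KB.B1_1
import Pool.Agent.Helper54.KB.B1_2
import Pool.Agent.Helper54.KB.B1_3
import Pool.Agent.Helper54.KB.B1_4

set_option autoImplicit false
set_option maxRecDepth 1000000

/-! # Assembly `B1` -/

namespace Pool.Agent.Helper54.KB

open Pool.Agent.Helper54 Pool.Agent.Helper54.KA

variable {H P : (ℕ → ℝ) → (ℕ → ℝ) → Prop}

/-- boxes from number 37 -/
def cB1_37 : List Nat := bB1_37

lemma aB1_37 (hC : ∀ z φ, H z φ → Cf z φ) (hd : ∀ L D r, Pool.Agent.Helper66.Kiss.DlG.dlH L 0 D r = true → Good H P L 0) : AGX H P cB1_37 :=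
  (soundLP ctB_OKL hC hd tB1_37)

/-- boxes from number 36 -/
def cB1_36 : List Nat := bB1_36 ++ cB1_37

lemma aB1_36 (hC : ∀ z φ, H z φ → Cf z φ) (hd : ∀ L D r, Pool.Agent.Helper66.Kiss.DlG.dlH L 0 D r = true → Good H P L 0) : AGX H P cB1_36 :=
  AGX_append (soundLP ctB_OKL hC hd tB1_36) (aB1_37 hC hd)

/-- boxes from number 35 -/
def cB1_35 : List Nat := bB1_35 ++ cB1_36

lemma aB1_35 (hC : ∀ z φ, H z φ → Cf z φ) (hd : ∀ L D r, Pool.Agent.Helper66.Kiss.DlG.dlH L 0 D r = true → Good H P L 0) : AGX H P cB1_35 :=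
  AGX_append (soundLP ctB_OKL hC hd tB1_35) (aB1_36 hC hd)

/-- boxes from number 34 -/
def cB1_34 : List Nat := bB1_34 ++ cB1_35

lemma aB1_34 (hC : ∀ z φ, H z φ → Cf z φ) (hd : ∀ L D r, Pool.Agent.Helper66.Kiss.DlG.dlH L 0 D r = true → Good H P L 0) : AGX H P cB1_34 :=
  AGX_append (soundLP ctB_OKL hC hd tB1_34) (aB1_35 hC hd)

/-- boxes from number 33 -/
def cB1_33 : List Nat := bB1_33 ++ cB1_34

lemma aB1_33 (hC : ∀ z φ, H z φ → Cf z φ) (hd : ∀ L D r, Pool.Agent.Helper66.Kiss.DlG.dlH L 0 D r = true → Good H P L 0) : AGX H P cB1_33 :=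
  AGX_append (soundLP ctB_OKL hC hd tB1_33) (aB1_34 hC hd)

/-- boxes from number 32 -/
def cB1_32 : List Nat := bB1_32 ++ cB1_33

lemma aB1_32 (hC : ∀ z φ, H z φ → Cf z φ) (hd : ∀ L D r, Pool.Agent.Helper66.Kiss.DlG.dlH L 0 D r = true → Good H P L 0) : AGX H P cB1_32 :=
  AGX_append (soundLP ctB_OKL hC hd tB1_32) (aB1_33 hC hd)

/-- boxes from number 31 -/
def cB1_31 : List Nat := bB1_31 ++ cB1_32

lemma aB1_31 (hC : ∀ z φ, H z φ → Cf z φ) (hd : ∀ L D r, Pool.Agent.Helper66.Kiss.DlG.dlH L 0 D r = true → Good H P L 0) : AGX H P cB1_31 :=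
  AGX_append (soundLP ctB_OKL hC hd tB1_31) (aB1_32 hC hd)

/-- boxes from number 30 -/
def cB1_30 : List Nat := bB1_30 ++ cB1_31

lemma aB1_30 (hC : ∀ z φ, H z φ → Cf z φ) (hd : ∀ L D r, Pool.Agent.Helper66.Kiss.DlG.dlH L 0 D r = true → Good H P L 0) : AGX H P cB1_30 :=
  AGX_append (soundLP ctB_OKL hC hd tB1_30) (aB1_31 hC hd)

/-- boxes from number 29 -/
def cB1_29 : List Nat := bB1_29 ++ cB1_30

lemma aB1_29 (hC : ∀ z φ, H z φ → Cf z φ) (hd : ∀ L D r, Pool.Agent.Helper66.Kiss.DlG.dlH L 0 D r = true → Good H P L 0) : AGX H P cB1_29 :=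
  AGX_append (soundLP ctB_OKL hC hd tB1_29) (aB1_30 hC hd)

/-- boxes from number 28 -/
def cB1_28 : List Nat := bB1_28 ++ cB1_29

lemma aB1_28 (hC : ∀ z φ, H z φ → Cf z φ) (hd : ∀ L D r, Pool.Agent.Helper66.Kiss.DlG.dlH L 0 D r = true → Good H P L 0) : AGX H P cB1_28 :=
  AGX_append (soundLP ctB_OKL hC hd tB1_28) (aB1_29 hC hd)

/-- boxes from number 27 -/
def cB1_27 : List Nat := bB1_27 ++ cB1_28

lemma aB1_27 (hC : ∀ z φ, H z φ → Cf z φ) (hd : ∀ L D r, Pool.Agent.Helper66.Kiss.DlG.dlH L 0 D r = true → Good H P L 0) : AGX H P cB1_27 :=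
  AGX_append (soundLP ctB_OKL hC hd tB1_27) (aB1_28 hC hd)

/-- boxes from number 26 -/
def cB1_26 : List Nat := bB1_26 ++ cB1_27

lemma aB1_26 (hC : ∀ z φ, H z φ → Cf z φ) (hd : ∀ L D r, Pool.Agent.Helper66.Kiss.DlG.dlH L 0 D r = true → Good H P L 0) : AGX H P cB1_26 :=
  AGX_append (soundLP ctB_OKL hC hd tB1_26) (aB1_27 hC hd)

/-- boxes from number 25 -/
def cB1_25 : List Nat := bB1_25 ++ cB1_26

lemma aB1_25 (hC : ∀ z φ, H z φ → Cf z φ) (hd : ∀ L D r, Pool.Agent.Helper66.Kiss.DlG.dlH L 0 D r = true → Good H P L 0) : AGX H P cB1_25 :=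
  AGX_append (soundLP ctB_OKL hC hd tB1_25) (aB1_26 hC hd)

/-- boxes from number 24 -/
def cB1_24 : List Nat := bB1_24 ++ cB1_25

lemma aB1_24 (hC : ∀ z φ, H z φ → Cf z φ) (hd : ∀ L D r, Pool.Agent.Helper66.Kiss.DlG.dlH L 0 D r = true → Good H P L 0) : AGX H P cB1_24 :=
  AGX_append (soundLP ctB_OKL hC hd tB1_24) (aB1_25 hC hd)

/-- boxes from number 23 -/
def cB1_23 : List Nat := bB1_23 ++ cB1_24

lemma aB1_23 (hC : ∀ z φ, H z φ → Cf z φ) (hd : ∀ L D r, Pool.Agent.Helper66.Kiss.DlG.dlH L 0 D r = true → Good H P L 0) : AGX H P cB1_23 :=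
  AGX_append (soundLP ctB_OKL hC hd tB1_23) (aB1_24 hC hd)

/-- boxes from number 22 -/
def cB1_22 : List Nat := bB1_22 ++ cB1_23

lemma aB1_22 (hC : ∀ z φ, H z φ → Cf z φ) (hd : ∀ L D r, Pool.Agent.Helper66.Kiss.DlG.dlH L 0 D r = true → Good H P L 0) : AGX H P cB1_22 :=
  AGX_append (soundLP ctB_OKL hC hd tB1_22) (aB1_23 hC hd)

/-- boxes from number 21 -/
def cB1_21 : List Nat := bB1_21 ++ cB1_22

lemma aB1_21 (hC : ∀ z φ, H z φ → Cf z φ) (hd : ∀ L D r, Pool.Agent.Helper66.Kiss.DlG.dlH L 0 D r = true → Good H P L 0) : AGX H P cB1_21 :=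
  AGX_append (soundLP ctB_OKL hC hd tB1_21) (aB1_22 hC hd)

/-- boxes from number 20 -/
def cB1_20 : List Nat := bB1_20 ++ cB1_21

lemma aB1_20 (hC : ∀ z φ, H z φ → Cf z φ) (hd : ∀ L D r, Pool.Agent.Helper66.Kiss.DlG.dlH L 0 D r = true → Good H P L 0) : AGX H P cB1_20 :=
  AGX_append (soundLP ctB_OKL hC hd tB1_20) (aB1_21 hC hd)

/-- boxes from number 19 -/
def cB1_19 : List Nat := bB1_19 ++ cB1_20

lemma aB1_19 (hC : ∀ z φ, H z φ → Cf z φ) (hd : ∀ L D r, Pool.Agent.Helper66.Kiss.DlG.dlH L 0 D r = true → Good H P L 0) : AGX H P cB1_19 :=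
  AGX_append (soundLP ctB_OKL hC hd tB1_19) (aB1_20 hC hd)

/-- boxes from number 18 -/
def cB1_18 : List Nat := bB1_18 ++ cB1_19

lemma aB1_18 (hC : ∀ z φ, H z φ → Cf z φ) (hd : ∀ L D r, Pool.Agent.Helper66.Kiss.DlG.dlH L 0 D r = true → Good H P L 0) : AGX H P cB1_18 :=
  AGX_append (soundLP ctB_OKL hC hd tB1_18) (aB1_19 hC hd)

/-- boxes from number 17 -/
def cB1_17 : List Nat := bB1_17 ++ cB1_18

lemma aB1_17 (hC : ∀ z φ, H z φ → Cf z φ) (hd : ∀ L D r, Pool.Agent.Helper66.Kiss.DlG.dlH L 0 D r = true → Good H P L 0) : AGX H P cB1_17 :=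
  AGX_append (soundLP ctB_OKL hC hd tB1_17) (aB1_18 hC hd)

/-- boxes from number 16 -/
def cB1_16 : List Nat := bB1_16 ++ cB1_17

lemma aB1_16 (hC : ∀ z φ, H z φ → Cf z φ) (hd : ∀ L D r, Pool.Agent.Helper66.Kiss.DlG.dlH L 0 D r = true → Good H P L 0) : AGX H P cB1_16 :=
  AGX_append (soundLP ctB_OKL hC hd tB1_16) (aB1_17 hC hd)

/-- boxes from number 15 -/
def cB1_15 : List Nat := bB1_15 ++ cB1_16

lemma aB1_15 (hC : ∀ z φ, H z φ → Cf z φ) (hd : ∀ L D r, Pool.Agent.Helper66.Kiss.DlG.dlH L 0 D r = true → Good H P L 0) : AGX H P cB1_15 :=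
  AGX_append (soundLP ctB_OKL hC hd tB1_15) (aB1_16 hC hd)

/-- boxes from number 14 -/
def cB1_14 : List Nat := bB1_14 ++ cB1_15

lemma aB1_14 (hC : ∀ z φ, H z φ → Cf z φ) (hd : ∀ L D r, Pool.Agent.Helper66.Kiss.DlG.dlH L 0 D r = true → Good H P L 0) : AGX H P cB1_14 :=
  AGX_append (soundLP ctB_OKL hC hd tB1_14) (aB1_15 hC hd)

/-- boxes from number 13 -/
def cB1_13 : List Nat := bB1_13 ++ cB1_14

lemma aB1_13 (hC : ∀ z φ, H z φ → Cf z φ) (hd : ∀ L D r, Pool.Agent.Helper66.Kiss.DlG.dlH L 0 D r = true → Good H P L 0) : AGX H P cB1_13 :=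
  AGX_append (soundLP ctB_OKL hC hd tB1_13) (aB1_14 hC hd)

/-- boxes from number 12 -/
def cB1_12 : List Nat := bB1_12 ++ cB1_13

lemma aB1_12 (hC : ∀ z φ, H z φ → Cf z φ) (hd : ∀ L D r, Pool.Agent.Helper66.Kiss.DlG.dlH L 0 D r = true → Good H P L 0) : AGX H P cB1_12 :=
  AGX_append (soundLP ctB_OKL hC hd tB1_12) (aB1_13 hC hd)

/-- boxes from number 11 -/
def cB1_11 : List Nat := bB1_11 ++ cB1_12

lemma aB1_11 (hC : ∀ z φ, H z φ → Cf z φ) (hd : ∀ L D r, Pool.Agent.Helper66.Kiss.DlG.dlH L 0 D r = true → Good H P L 0) : AGX H P cB1_11 :=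
  AGX_append (soundLP ctB_OKL hC hd tB1_11) (aB1_12 hC hd)

/-- boxes from number 10 -/
def cB1_10 : List Nat := bB1_10 ++ cB1_11

lemma aB1_10 (hC : ∀ z φ, H z φ → Cf z φ) (hd : ∀ L D r, Pool.Agent.Helper66.Kiss.DlG.dlH L 0 D r = true → Good H P L 0) : AGX H P cB1_10 :=
  AGX_append (soundLP ctB_OKL hC hd tB1_10) (aB1_11 hC hd)

/-- boxes from number 9 -/
def cB1_9 : List Nat := bB1_9 ++ cB1_10

lemma aB1_9 (hC : ∀ z φ, H z φ → Cf z φ) (hd : ∀ L D r, Pool.Agent.Helper66.Kiss.DlG.dlH L 0 D r = true → Good H P L 0) : AGX H P cB1_9 :=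
  AGX_append (soundLP ctB_OKL hC hd tB1_9) (aB1_10 hC hd)

/-- boxes from number 8 -/
def cB1_8 : List Nat := bB1_8 ++ cB1_9

lemma aB1_8 (hC : ∀ z φ, H z φ → Cf z φ) (hd : ∀ L D r, Pool.Agent.Helper66.Kiss.DlG.dlH L 0 D r = true → Good H P L 0) : AGX H P cB1_8 :=
  AGX_append (soundLP ctB_OKL hC hd tB1_8) (aB1_9 hC hd)

/-- boxes from number 7 -/
def cB1_7 : List Nat := bB1_7 ++ cB1_8

lemma aB1_7 (hC : ∀ z φ, H z φ → Cf z φ) (hd : ∀ L D r, Pool.Agent.Helper66.Kiss.DlG.dlH L 0 D r = true → Good H P L 0) : AGX H P cB1_7 :=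
  AGX_append (soundLP ctB_OKL hC hd tB1_7) (aB1_8 hC hd)

/-- boxes from number 6 -/
def cB1_6 : List Nat := bB1_6 ++ cB1_7

lemma aB1_6 (hC : ∀ z φ, H z φ → Cf z φ) (hd : ∀ L D r, Pool.Agent.Helper66.Kiss.DlG.dlH L 0 D r = true → Good H P L 0) : AGX H P cB1_6 :=
  AGX_append (soundLP ctB_OKL hC hd tB1_6) (aB1_7 hC hd)

/-- boxes from number 5 -/
def cB1_5 : List Nat := bB1_5 ++ cB1_6

lemma aB1_5 (hC : ∀ z φ, H z φ → Cf z φ) (hd : ∀ L D r, Pool.Agent.Helper66.Kiss.DlG.dlH L 0 D r = true → Good H P L 0) : AGX H P cB1_5 :=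
  AGX_append (soundLP ctB_OKL hC hd tB1_5) (aB1_6 hC hd)

/-- boxes from number 4 -/
def cB1_4 : List Nat := bB1_4 ++ cB1_5

lemma aB1_4 (hC : ∀ z φ, H z φ → Cf z φ) (hd : ∀ L D r, Pool.Agent.Helper66.Kiss.DlG.dlH L 0 D r = true → Good H P L 0) : AGX H P cB1_4 :=
  AGX_append (soundLP ctB_OKL hC hd tB1_4) (aB1_5 hC hd)

/-- boxes from number 3 -/
def cB1_3 : List Nat := bB1_3 ++ cB1_4

lemma aB1_3 (hC : ∀ z φ, H z φ → Cf z φ) (hd : ∀ L D r, Pool.Agent.Helper66.Kiss.DlG.dlH L 0 D r = true → Good H P L 0) : AGX H P cB1_3 :=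
  AGX_append (soundLP ctB_OKL hC hd tB1_3) (aB1_4 hC hd)

/-- boxes from number 2 -/
def cB1_2 : List Nat := bB1_2 ++ cB1_3

lemma aB1_2 (hC : ∀ z φ, H z φ → Cf z φ) (hd : ∀ L D r, Pool.Agent.Helper66.Kiss.DlG.dlH L 0 D r = true → Good H P L 0) : AGX H P cB1_2 :=
  AGX_append (soundLP ctB_OKL hC hd tB1_2) (aB1_3 hC hd)

/-- boxes from number 1 -/
def cB1_1 : List Nat := bB1_1 ++ cB1_2

lemma aB1_1 (hC : ∀ z φ, H z φ → Cf z φ) (hd : ∀ L D r, Pool.Agent.Helper66.Kiss.DlG.dlH L 0 D r = true → Good H P L 0) : AGX H P cB1_1 :=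
  AGX_append (soundLP ctB_OKL hC hd tB1_1) (aB1_2 hC hd)

/-- boxes from number 0 -/
def cB1_0 : List Nat := bB1_0 ++ cB1_1

lemma aB1_0 (hC : ∀ z φ, H z φ → Cf z φ) (hd : ∀ L D r, Pool.Agent.Helper66.Kiss.DlG.dlH L 0 D r = true → Good H P L 0) : AGX H P cB1_0 :=
  AGX_append (soundLP ctB_OKL hC hd tB1_0) (aB1_1 hC hd)

theorem topB1 : KL.runX KL.ctB (KL.dlX cB1_0) (KL.dec 6 0xcb600cae00ca6058200581800c9e00c9600c8e00c86058380583000c7e058280582000c7600c6e0582800c6605820058180581000c5e00c5600c4e058300582800c4600c3e00c3600c2e058480584000c26058380583000c1e00c160583800c0e05830058280582000c0600bfe00bf60584000bee058380583000be600bde0584000bd600bce00bc600bbe00bb600bae00ba600b9e00b9600b8e00b8601f1808e50050180502803e0800b7e00b7600b6e00b6600b5e01f08050280501803b3800b5600b4e00b4600b3e00b3600b2e00b2601f38047b804788037c804b1804b2808e5008e400500803e4800b1e00b1600b0e00b0600afe00af600aee00ae600ade00ad600ace00ac601f38042a800abe0705004ab80481800ab60605004288047c800a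ae0703000aa6060300482804d180470808e5004d2800a9e00a9600a8e00a8600a7e00a7600a6e01f4804028044c800a6600a5e08e5001f2804ac80522804d0808e4008e30050480503800a5600a4e00a4600a3e00a3600a2e00a2605008050480503803ba803b1800a1e00a1600a0e00a06009fe009f6009ee01f48046a804d1804d0804d38047c808e5004d28009e6009de009d6009ce009c6009be009b6009ae01f18046c804eb804ea804798009a60099e009960098e009860097e009760096e009660095e009560094e01f3803d4804208009460802004618044b8046280093e070400093605d400092e070500092605d500091e067200478804248009160602004b1804b28049b808e500500804d4808e400090e00906008fe008f6008ee008e6008de008d6008ce008c601f3804718047b8037a804a8804ac8008be008b6008ae008a60089e008960088e008860087e008760086e0086601f3804588045c80085e070200085605d2003e2804638042180084e0805000846070300083e067500083605d3004a8804ac8042280082e063500499804b3808e50050a80504805008008260081e008160080e00806007fe007f6007ee007e601f480484804628045b804798007de007d6007ce007c6007be007b6007ae007a6080500079e07040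0079607030041b80078e05eb00078605ec004a88045480077e066500462800776066a004b180463808e5005228050080076e05e5004d4808e4008e3008e20007660075e007560074e007460073e007360072e01f2805048050280503803b98007260071e007160070e00706006fe006f601f18037880481804b3804b280474808e5004d1803b08006ee006e6006de006d6006ce006c6006be006b6006ae01f0804818047b8006a60069e006960068e006860067e01f18048180468804648047b808e50050480508804d18050380502808e40006760066e006660065e006560064e006460063e006360062e006260061e006160060e01f1804288045c8047980060607030005fe0603004ac804238047a8005f607010005ee06010046b804e9804ea804708005e6005de005d6005ce005c6005be005b6005ae005a60059e005960058e01f2803d38042480058608010044a804618046080057e0704000576070300056e067100056605d400055e05d30047c804238005560631004b0804b18049a808e4004d38050480054e005460053e005360052e005260051e005160050e00506004fe004f6004ee004e6004de01f180429803d08042c8004d608030004ce0705004838004c607010004be05d10004b605d5004818004ae0673004848049a804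308004a60049e004960048e004860047e0047608030048180046e0704000466070500045e06890045380045605ed00044e068300044605ec004b2804548046080043e0649008e4000436061b004e880522804d4804d3804d1808e5008e300042e004260041e004160040e00406003fe003f6003ee003e601f0804ac804708047280389804ab8003de003d6003ce003c6003be003b6003ae003a60039e003960038e0038601f08045b8045c80037e070200037605d200460803d18042280036e0804000366070100035e05d1000356065c004ab804ac8043180034e061c0049a804b0808e4004e980504805038003460033e003360032e003260031e003160030e0030601f3804cc804618045a804788002fe002f6002ee002e6002de002d6002ce002c608010002be07030002b60702004128002ae05ea0002a605eb0045380029e06940049c804618002960669004b080472808e40052180028e05fc00524804b3808e30002860027e002760026e002660025e002560024e01f4804cb804588047a804718002460023e002360022e002260021e002160020e002060804004298001fe07050001f607010001ee069a004548001e60605004288001de05e90049b8001d60664004b28001ce064a0047080471808e40001c605e400523804b48001b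e001b6001ae001a60019e001960018e001860017e001760016e0016608050048480015e070200483800156070100014e068b000146068d00439804608046280013e001360012e001260011e001160010e08020045180010606a90000fe069b0000f606ad004548000ee069400453804628000e60682004608000de0659008e40000d605d20000ce05d1005008000c6064b0000be064d00502804d4804d38000b60634004b1808e3008e5008e2008e10000ae0585005848000a605840058380009e00096058400008e058380583005828000860007e05838000760006e0583805830000660582805820058180005e000560004e058380004605830058280003e000360002e058400002605838058300001e0582805820000160000e0582800006058200581805810058080 List.nil) 0x180007f0180007f0180007f0180007f0180007f0180007f0180007f0180007f0180007f0180007f08009800056da447b [] 0 = true := by decide +kernel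

/-- the root box -/
theorem rootB1 (hC : ∀ z φ, H z φ → Cf z φ) (hd : ∀ L D r, Pool.Agent.Helper66.Kiss.DlG.dlH L 0 D r = true → Good H P L 0) :
    GoodX H P 0x180007f0180007f0180007f0180007f0180007f0180007f0180007f0180007f0180007f0180007f08009800056da447b :=
  soundLT ctB_OKL hC (aB1_0 hC hd) topB1

end Pool.Agent.Helper54.KB
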