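import Pool.Agent.Helper54.KA.LiteS
import Pool.Agent.Helper54.KB.B2_1
import Pool.Agent.Helper54.KB.B2_2
import Pool.Agent.Helper54.KB.B2_3
import Pool.Agent.Helper54.KB.B2_4

set_option autoImplicit false
set_option maxRecDepth 1000000

/-! # Assembly `B2` -/

namespace Pool.Agent.Helper54.KB

open Pool.Agent.Helper54 Pool.Agent.Helper54.KA

variable {H P : (ℕ → ℝ) → (ℕ → ℝ) → Prop}

/-- boxes from number 44 -/
def cB2_44 : List Nat := bB2_44

lemma aB2_44 (hC : ∀ z φ, H z φ → Cf z φ) (hd : ∀ L D r, Pool.Agent.Helper66.Kiss.DlG.dlH L 0 D r = true → Good H P L 0) : AGX H P cB2_44 :=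
  (soundLP ctB_OKL hC hd tB2_44)

/-- boxes from number 43 -/
def cB2_43 : List Nat := bB2_43 ++ cB2_44

lemma aB2_43 (hC : ∀ z φ, H z φ → Cf z φ) (hd : ∀ L D r, Pool.Agent.Helper66.Kiss.DlG.dlH L 0 D r = true → Good H P L 0) : AGX H P cB2_43 :=
  AGX_append (soundLP ctB_OKL hC hd tB2_43) (aB2_44 hC hd)

/-- boxes from number 42 -/
def cB2_42 : List Nat := bB2_42 ++ cB2_43

lemma aB2_42 (hC : ∀ z φ, H z φ → Cf z φ) (hd : ∀ L D r, Pool.Agent.Helper66.Kiss.DlG.dlH L 0 D r = true → Good H P L 0) : AGX H P cB2_42 :=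
  AGX_append (soundLP ctB_OKL hC hd tB2_42) (aB2_43 hC hd)

/-- boxes from number 41 -/
def cB2_41 : List Nat := bB2_41 ++ cB2_42

lemma aB2_41 (hC : ∀ z φ, H z φ → Cf z φ) (hd : ∀ L D r, Pool.Agent.Helper66.Kiss.DlG.dlH L 0 D r = true → Good H P L 0) : AGX H P cB2_41 :=
  AGX_append (soundLP ctB_OKL hC hd tB2_41) (aB2_42 hC hd)

/-- boxes from number 40 -/
def cB2_40 : List Nat := bB2_40 ++ cB2_41

lemma aB2_40 (hC : ∀ z φ, H z φ → Cf z φ) (hd : ∀ L D r, Pool.Agent.Helper66.Kiss.DlG.dlH L 0 D r = true → Good H P L 0) : AGX H P cB2_40 :=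
  AGX_append (soundLP ctB_OKL hC hd tB2_40) (aB2_41 hC hd)

/-- boxes from number 39 -/
def cB2_39 : List Nat := bB2_39 ++ cB2_40

lemma aB2_39 (hC : ∀ z φ, H z φ → Cf z φ) (hd : ∀ L D r, Pool.Agent.Helper66.Kiss.DlG.dlH L 0 D r = true → Good H P L 0) : AGX H P cB2_39 :=
  AGX_append (soundLP ctB_OKL hC hd tB2_39) (aB2_40 hC hd)

/-- boxes from number 38 -/
def cB2_38 : List Nat := bB2_38 ++ cB2_39

lemma aB2_38 (hC : ∀ z φ, H z φ → Cf z φ) (hd : ∀ L D r, Pool.Agent.Helper66.Kiss.DlG.dlH L 0 D r = true → Good H P L 0) : AGX H P cB2_38 :=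
  AGX_append (soundLP ctB_OKL hC hd tB2_38) (aB2_39 hC hd)

/-- boxes from number 37 -/
def cB2_37 : List Nat := bB2_37 ++ cB2_38

lemma aB2_37 (hC : ∀ z φ, H z φ → Cf z φ) (hd : ∀ L D r, Pool.Agent.Helper66.Kiss.DlG.dlH L 0 D r = true → Good H P L 0) : AGX H P cB2_37 :=
  AGX_append (soundLP ctB_OKL hC hd tB2_37) (aB2_38 hC hd)

/-- boxes from number 36 -/
def cB2_36 : List Nat := bB2_36 ++ cB2_37

lemma aB2_36 (hC : ∀ z φ, H z φ → Cf z φ) (hd : ∀ L D r, Pool.Agent.Helper66.Kiss.DlG.dlH L 0 D r = true → Good H P L 0) : AGX H P cB2_36 :=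
  AGX_append (soundLP ctB_OKL hC hd tB2_36) (aB2_37 hC hd)

/-- boxes from number 35 -/
def cB2_35 : List Nat := bB2_35 ++ cB2_36

lemma aB2_35 (hC : ∀ z φ, H z φ → Cf z φ) (hd : ∀ L D r, Pool.Agent.Helper66.Kiss.DlG.dlH L 0 D r = true → Good H P L 0) : AGX H P cB2_35 :=
  AGX_append (soundLP ctB_OKL hC hd tB2_35) (aB2_36 hC hd)

/-- boxes from number 34 -/
def cB2_34 : List Nat := bB2_34 ++ cB2_35

lemma aB2_34 (hC : ∀ z φ, H z φ → Cf z φ) (hd : ∀ L D r, Pool.Agent.Helper66.Kiss.DlG.dlH L 0 D r = true → Good H P L 0) : AGX H P cB2_34 :=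
  AGX_append (soundLP ctB_OKL hC hd tB2_34) (aB2_35 hC hd)

/-- boxes from number 33 -/
def cB2_33 : List Nat := bB2_33 ++ cB2_34

lemma aB2_33 (hC : ∀ z φ, H z φ → Cf z φ) (hd : ∀ L D r, Pool.Agent.Helper66.Kiss.DlG.dlH L 0 D r = true → Good H P L 0) : AGX H P cB2_33 :=
  AGX_append (soundLP ctB_OKL hC hd tB2_33) (aB2_34 hC hd)

/-- boxes from number 32 -/
def cB2_32 : List Nat := bB2_32 ++ cB2_33

lemma aB2_32 (hC : ∀ z φ, H z φ → Cf z φ) (hd : ∀ L D r, Pool.Agent.Helper66.Kiss.DlG.dlH L 0 D r = true → Good H P L 0) : AGX H P cB2_32 :=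
  AGX_append (soundLP ctB_OKL hC hd tB2_32) (aB2_33 hC hd)

/-- boxes from number 31 -/
def cB2_31 : List Nat := bB2_31 ++ cB2_32

lemma aB2_31 (hC : ∀ z φ, H z φ → Cf z φ) (hd : ∀ L D r, Pool.Agent.Helper66.Kiss.DlG.dlH L 0 D r = true → Good H P L 0) : AGX H P cB2_31 :=
  AGX_append (soundLP ctB_OKL hC hd tB2_31) (aB2_32 hC hd)

/-- boxes from number 30 -/
def cB2_30 : List Nat := bB2_30 ++ cB2_31

lemma aB2_30 (hC : ∀ z φ, H z φ → Cf z φ) (hd : ∀ L D r, Pool.Agent.Helper66.Kiss.DlG.dlH L 0 D r = true → Good H P L 0) : AGX H P cB2_30 :=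
  AGX_append (soundLP ctB_OKL hC hd tB2_30) (aB2_31 hC hd)

/-- boxes from number 29 -/
def cB2_29 : List Nat := bB2_29 ++ cB2_30

lemma aB2_29 (hC : ∀ z φ, H z φ → Cf z φ) (hd : ∀ L D r, Pool.Agent.Helper66.Kiss.DlG.dlH L 0 D r = true → Good H P L 0) : AGX H P cB2_29 :=
  AGX_append (soundLP ctB_OKL hC hd tB2_29) (aB2_30 hC hd)

/-- boxes from number 28 -/
def cB2_28 : List Nat := bB2_28 ++ cB2_29

lemma aB2_28 (hC : ∀ z φ, H z φ → Cf z φ) (hd : ∀ L D r, Pool.Agent.Helper66.Kiss.DlG.dlH L 0 D r = true → Good H P L 0) : AGX H P cB2_28 :=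
  AGX_append (soundLP ctB_OKL hC hd tB2_28) (aB2_29 hC hd)

/-- boxes from number 27 -/
def cB2_27 : List Nat := bB2_27 ++ cB2_28

lemma aB2_27 (hC : ∀ z φ, H z φ → Cf z φ) (hd : ∀ L D r, Pool.Agent.Helper66.Kiss.DlG.dlH L 0 D r = true → Good H P L 0) : AGX H P cB2_27 :=
  AGX_append (soundLP ctB_OKL hC hd tB2_27) (aB2_28 hC hd)

/-- boxes from number 26 -/
def cB2_26 : List Nat := bB2_26 ++ cB2_27

lemma aB2_26 (hC : ∀ z φ, H z φ → Cf z φ) (hd : ∀ L D r, Pool.Agent.Helper66.Kiss.DlG.dlH L 0 D r = true → Good H P L 0) : AGX H P cB2_26 :=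
  AGX_append (soundLP ctB_OKL hC hd tB2_26) (aB2_27 hC hd)

/-- boxes from number 25 -/
def cB2_25 : List Nat := bB2_25 ++ cB2_26

lemma aB2_25 (hC : ∀ z φ, H z φ → Cf z φ) (hd : ∀ L D r, Pool.Agent.Helper66.Kiss.DlG.dlH L 0 D r = true → Good H P L 0) : AGX H P cB2_25 :=
  AGX_append (soundLP ctB_OKL hC hd tB2_25) (aB2_26 hC hd)

/-- boxes from number 24 -/
def cB2_24 : List Nat := bB2_24 ++ cB2_25

lemma aB2_24 (hC : ∀ z φ, H z φ → Cf z φ) (hd : ∀ L D r, Pool.Agent.Helper66.Kiss.DlG.dlH L 0 D r = true → Good H P L 0) : AGX H P cB2_24 :=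
  AGX_append (soundLP ctB_OKL hC hd tB2_24) (aB2_25 hC hd)

/-- boxes from number 23 -/
def cB2_23 : List Nat := bB2_23 ++ cB2_24

lemma aB2_23 (hC : ∀ z φ, H z φ → Cf z φ) (hd : ∀ L D r, Pool.Agent.Helper66.Kiss.DlG.dlH L 0 D r = true → Good H P L 0) : AGX H P cB2_23 :=
  AGX_append (soundLP ctB_OKL hC hd tB2_23) (aB2_24 hC hd)

/-- boxes from number 22 -/
def cB2_22 : List Nat := bB2_22 ++ cB2_23

lemma aB2_22 (hC : ∀ z φ, H z φ → Cf z φ) (hd : ∀ L D r, Pool.Agent.Helper66.Kiss.DlG.dlH L 0 D r = true → Good H P L 0) : AGX H P cB2_22 :=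
  AGX_append (soundLP ctB_OKL hC hd tB2_22) (aB2_23 hC hd)

/-- boxes from number 21 -/
def cB2_21 : List Nat := bB2_21 ++ cB2_22

lemma aB2_21 (hC : ∀ z φ, H z φ → Cf z φ) (hd : ∀ L D r, Pool.Agent.Helper66.Kiss.DlG.dlH L 0 D r = true → Good H P L 0) : AGX H P cB2_21 :=
  AGX_append (soundLP ctB_OKL hC hd tB2_21) (aB2_22 hC hd)

/-- boxes from number 20 -/
def cB2_20 : List Nat := bB2_20 ++ cB2_21

lemma aB2_20 (hC : ∀ z φ, H z φ → Cf z φ) (hd : ∀ L D r, Pool.Agent.Helper66.Kiss.DlG.dlH L 0 D r = true → Good H P L 0) : AGX H P cB2_20 :=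
  AGX_append (soundLP ctB_OKL hC hd tB2_20) (aB2_21 hC hd)

/-- boxes from number 19 -/
def cB2_19 : List Nat := bB2_19 ++ cB2_20

lemma aB2_19 (hC : ∀ z φ, H z φ → Cf z φ) (hd : ∀ L D r, Pool.Agent.Helper66.Kiss.DlG.dlH L 0 D r = true → Good H P L 0) : AGX H P cB2_19 :=
  AGX_append (soundLP ctB_OKL hC hd tB2_19) (aB2_20 hC hd)

/-- boxes from number 18 -/
def cB2_18 : List Nat := bB2_18 ++ cB2_19

lemma aB2_18 (hC : ∀ z φ, H z φ → Cf z φ) (hd : ∀ L D r, Pool.Agent.Helper66.Kiss.DlG.dlH L 0 D r = true → Good H P L 0) : AGX H P cB2_18 :=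
  AGX_append (soundLP ctB_OKL hC hd tB2_18) (aB2_19 hC hd)

/-- boxes from number 17 -/
def cB2_17 : List Nat := bB2_17 ++ cB2_18

lemma aB2_17 (hC : ∀ z φ, H z φ → Cf z φ) (hd : ∀ L D r, Pool.Agent.Helper66.Kiss.DlG.dlH L 0 D r = true → Good H P L 0) : AGX H P cB2_17 :=
  AGX_append (soundLP ctB_OKL hC hd tB2_17) (aB2_18 hC hd)

/-- boxes from number 16 -/
def cB2_16 : List Nat := bB2_16 ++ cB2_17

lemma aB2_16 (hC : ∀ z φ, H z φ → Cf z φ) (hd : ∀ L D r, Pool.Agent.Helper66.Kiss.DlG.dlH L 0 D r = true → Good H P L 0) : AGX H P cB2_16 :=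
  AGX_append (soundLP ctB_OKL hC hd tB2_16) (aB2_17 hC hd)

/-- boxes from number 15 -/
def cB2_15 : List Nat := bB2_15 ++ cB2_16

lemma aB2_15 (hC : ∀ z φ, H z φ → Cf z φ) (hd : ∀ L D r, Pool.Agent.Helper66.Kiss.DlG.dlH L 0 D r = true → Good H P L 0) : AGX H P cB2_15 :=
  AGX_append (soundLP ctB_OKL hC hd tB2_15) (aB2_16 hC hd)

/-- boxes from number 14 -/
def cB2_14 : List Nat := bB2_14 ++ cB2_15

lemma aB2_14 (hC : ∀ z φ, H z φ → Cf z φ) (hd : ∀ L D r, Pool.Agent.Helper66.Kiss.DlG.dlH L 0 D r = true → Good H P L 0) : AGX H P cB2_14 :=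
  AGX_append (soundLP ctB_OKL hC hd tB2_14) (aB2_15 hC hd)

/-- boxes from number 13 -/
def cB2_13 : List Nat := bB2_13 ++ cB2_14

lemma aB2_13 (hC : ∀ z φ, H z φ → Cf z φ) (hd : ∀ L D r, Pool.Agent.Helper66.Kiss.DlG.dlH L 0 D r = true → Good H P L 0) : AGX H P cB2_13 :=
  AGX_append (soundLP ctB_OKL hC hd tB2_13) (aB2_14 hC hd)

/-- boxes from number 12 -/
def cB2_12 : List Nat := bB2_12 ++ cB2_13

lemma aB2_12 (hC : ∀ z φ, H z φ → Cf z φ) (hd : ∀ L D r, Pool.Agent.Helper66.Kiss.DlG.dlH L 0 D r = true → Good H P L 0) : AGX H P cB2_12 :=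
  AGX_append (soundLP ctB_OKL hC hd tB2_12) (aB2_13 hC hd)

/-- boxes from number 11 -/
def cB2_11 : List Nat := bB2_11 ++ cB2_12

lemma aB2_11 (hC : ∀ z φ, H z φ → Cf z φ) (hd : ∀ L D r, Pool.Agent.Helper66.Kiss.DlG.dlH L 0 D r = true → Good H P L 0) : AGX H P cB2_11 :=
  AGX_append (soundLP ctB_OKL hC hd tB2_11) (aB2_12 hC hd)

/-- boxes from number 10 -/
def cB2_10 : List Nat := bB2_10 ++ cB2_11

lemma aB2_10 (hC : ∀ z φ, H z φ → Cf z φ) (hd : ∀ L D r, Pool.Agent.Helper66.Kiss.DlG.dlH L 0 D r = true → Good H P L 0) : AGX H P cB2_10 :=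
  AGX_append (soundLP ctB_OKL hC hd tB2_10) (aB2_11 hC hd)

/-- boxes from number 9 -/
def cB2_9 : List Nat := bB2_9 ++ cB2_10

lemma aB2_9 (hC : ∀ z φ, H z φ → Cf z φ) (hd : ∀ L D r, Pool.Agent.Helper66.Kiss.DlG.dlH L 0 D r = true → Good H P L 0) : AGX H P cB2_9 :=
  AGX_append (soundLP ctB_OKL hC hd tB2_9) (aB2_10 hC hd)

/-- boxes from number 8 -/
def cB2_8 : List Nat := bB2_8 ++ cB2_9

lemma aB2_8 (hC : ∀ z φ, H z φ → Cf z φ) (hd : ∀ L D r, Pool.Agent.Helper66.Kiss.DlG.dlH L 0 D r = true → Good H P L 0) : AGX H P cB2_8 :=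
  AGX_append (soundLP ctB_OKL hC hd tB2_8) (aB2_9 hC hd)

/-- boxes from number 7 -/
def cB2_7 : List Nat := bB2_7 ++ cB2_8

lemma aB2_7 (hC : ∀ z φ, H z φ → Cf z φ) (hd : ∀ L D r, Pool.Agent.Helper66.Kiss.DlG.dlH L 0 D r = true → Good H P L 0) : AGX H P cB2_7 :=
  AGX_append (soundLP ctB_OKL hC hd tB2_7) (aB2_8 hC hd)

/-- boxes from number 6 -/
def cB2_6 : List Nat := bB2_6 ++ cB2_7

lemma aB2_6 (hC : ∀ z φ, H z φ → Cf z φ) (hd : ∀ L D r, Pool.Agent.Helper66.Kiss.DlG.dlH L 0 D r = true → Good H P L 0) : AGX H P cB2_6 :=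
  AGX_append (soundLP ctB_OKL hC hd tB2_6) (aB2_7 hC hd)

/-- boxes from number 5 -/
def cB2_5 : List Nat := bB2_5 ++ cB2_6

lemma aB2_5 (hC : ∀ z φ, H z φ → Cf z φ) (hd : ∀ L D r, Pool.Agent.Helper66.Kiss.DlG.dlH L 0 D r = true → Good H P L 0) : AGX H P cB2_5 :=
  AGX_append (soundLP ctB_OKL hC hd tB2_5) (aB2_6 hC hd)

/-- boxes from number 4 -/
def cB2_4 : List Nat := bB2_4 ++ cB2_5

lemma aB2_4 (hC : ∀ z φ, H z φ → Cf z φ) (hd : ∀ L D r, Pool.Agent.Helper66.Kiss.DlG.dlH L 0 D r = true → Good H P L 0) : AGX H P cB2_4 :=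
  AGX_append (soundLP ctB_OKL hC hd tB2_4) (aB2_5 hC hd)

/-- boxes from number 3 -/
def cB2_3 : List Nat := bB2_3 ++ cB2_4

lemma aB2_3 (hC : ∀ z φ, H z φ → Cf z φ) (hd : ∀ L D r, Pool.Agent.Helper66.Kiss.DlG.dlH L 0 D r = true → Good H P L 0) : AGX H P cB2_3 :=
  AGX_append (soundLP ctB_OKL hC hd tB2_3) (aB2_4 hC hd)

/-- boxes from number 2 -/
def cB2_2 : List Nat := bB2_2 ++ cB2_3

lemma aB2_2 (hC : ∀ z φ, H z φ → Cf z φ) (hd : ∀ L D r, Pool.Agent.Helper66.Kiss.DlG.dlH L 0 D r = true → Good H P L 0) : AGX H P cB2_2 :=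
  AGX_append (soundLP ctB_OKL hC hd tB2_2) (aB2_3 hC hd)

/-- boxes from number 1 -/
def cB2_1 : List Nat := bB2_1 ++ cB2_2

lemma aB2_1 (hC : ∀ z φ, H z φ → Cf z φ) (hd : ∀ L D r, Pool.Agent.Helper66.Kiss.DlG.dlH L 0 D r = true → Good H P L 0) : AGX H P cB2_1 :=
  AGX_append (soundLP ctB_OKL hC hd tB2_1) (aB2_2 hC hd)

/-- boxes from number 0 -/
def cB2_0 : List Nat := bB2_0 ++ cB2_1

lemma aB2_0 (hC : ∀ z φ, H z φ → Cf z φ) (hd : ∀ L D r, Pool.Agent.Helper66.Kiss.DlG.dlH L 0 D r = true → Good H P L 0) : AGX H P cB2_0 :=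
  AGX_append (soundLP ctB_OKL hC hd tB2_0) (aB2_1 hC hd)

theorem topB2 : KL.runX KL.ctB (KL.dlX cB2_0) (KL.dec 6 0x89e008960088e0582005818008860087e008760086e05838058300086605828058200085e00856058280084e058200581805810008460083e0083605830058280082e008260081e0081605848058400080e058380583000806007fe007f60584005838007ee058300582805820007e6007de007d6007ce0584805840007c6007be058400583805830007b6007ae007a605848058400079e007960078e007860077e007760076e007660075e007560074e0074608e4004b9804ab8049480073e05e200073605fd00072e01f3804aa8007260071e007160070e00706006fe08e50006f605fd0047c804ab804518006ee063400492808e10006e6006de01f38006d6006ce01f38006c606690006be0634001f2801f48006b6006ae006a60069e006960068e08e4000686069a00067e0711001f3804aa800676060300066e06850047c804ab800666061c00065e06b1000656063200064e006460063e0063608e200062e062b00062606a40049380061e06b100461800616061a00060e06f5000606005fe08e40005f606dd0005ee06e10005e6066a001f38005de0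5d30005d606850005ce0654001f28005c606310005be061d0005b6005ae005a60059e01f28005960729004bb80058e062b000586065200057e06b500057606340047a80056e0056601f280055e0643000556066a001f380054e05d3000546063500053e06e9001f4808e30005360052e00526030080051e06a3000516069d00050e069c0030280050606530004fe05f90004f6061a0004ee004e608e10004de06540004d6069b0004ce06320004c60631001f48004be05fc0004b605fb0004ae061d0004a60049e08e1000496065400048e06b5000486063200047e0633000476063100046e0046608e200045e063c000456061a00044e0631000446068b001f480043e05e40004360655001f380042e00426030380041e066b000416069d00040e068400040605fa0003fe003f608e40003ee06830003e606810003de0632001f48003d605fd0003ce05fc0003c6061b0003be06190003b6003ae068c0003a601f480039e06510003960775001f3801f2801f180038e003860037e06a3000376069c0030180036e05f9000366061d00035e0653000356066a00034e0034608e400033e05fd000336069300032e068a0003260669001f480031e06340003160030e01f4800306002fe002f608e30002ee0184800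2e605d10002de06b2004ac808e10002d6061c0002ce061d0002c60632001f38002be002b608e20002ae06a40002a6065500029e0633000296063200028e06310002860027e08e2000276063d00026e061b000266061a00025e0669001f480025605e500024e06540002460023e08e1000236061d00022e061b000226068c00021e0021608e300020e05e400020607720001fe0771001f48001f605e10001ee0652001f3801f28001e6001de03028001d606830001ce05f90001c6066a0001be001b608e40001ae06820001a6065100019e07a3001f480019605e200018e0633000186063500017e066c0001760016e08e3000166061c00015e0619000156069500014e0014608e100013e05e5000136077200012e0773001f480012605fb00011e0652001f38001160010e0010608e20000fe05e10000f60773001f48000ee06530000e6000de01f48000d605e20000ce01848000c60745001f38000be0744001f2801f1801f080504805038050280501805008000b60585005848000ae0584005838000a60009e05840000960583805830058280008e00086058380007e00076058400006e0583805830000660582805820058180005e000560004e058380004605830058280003e000360002e058400002605838058300001e0582805820000160000e0582800006058200581805810058080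 List.nil) 0x180007e0180007e0180007e0180007e0180007e0180007e0180007e0180007e0180007e0180007e0801280094b3f0924 [] 0 = true := by decide +kernel

/-- the root box -/
theorem rootB2 (hC : ∀ z φ, H z φ → Cf z φ) (hd : ∀ L D r, Pool.Agent.Helper66.Kiss.DlG.dlH L 0 D r = true → Good H P L 0) :
    GoodX H P 0x180007e0180007e0180007e0180007e0180007e0180007e0180007e0180007e0180007e0180007e0801280094b3f0924 :=
  soundLT ctB_OKL hC (aB2_0 hC hd) topB2

end Pool.Agent.Helper54.KB
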