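import Pool.Agent.Helper54.KA.LiteS
import Pool.Agent.Helper54.KB.B3_1
import Pool.Agent.Helper54.KB.B3_2
import Pool.Agent.Helper54.KB.B3_3
import Pool.Agent.Helper54.KB.B3_4

set_option autoImplicit false
set_option maxRecDepth 1000000

/-! # Assembly `B3` -/

namespace Pool.Agent.Helper54.KB

open Pool.Agent.Helper54 Pool.Agent.Helper54.KA

variable {H P : (ℕ → ℝ) → (ℕ → ℝ) → Prop}

/-- boxes from number 46 -/
def cB3_46 : List Nat := bB3_46

lemma aB3_46 (hC : ∀ z φ, H z φ → Cf z φ) (hd : ∀ L D r, Pool.Agent.Helper66.Kiss.DlG.dlH L 0 D r = true → Good H P L 0) : AGX H P cB3_46 :=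
  (soundLP ctB_OKL hC hd tB3_46)

/-- boxes from number 45 -/
def cB3_45 : List Nat := bB3_45 ++ cB3_46

lemma aB3_45 (hC : ∀ z φ, H z φ → Cf z φ) (hd : ∀ L D r, Pool.Agent.Helper66.Kiss.DlG.dlH L 0 D r = true → Good H P L 0) : AGX H P cB3_45 :=
  AGX_append (soundLP ctB_OKL hC hd tB3_45) (aB3_46 hC hd)

/-- boxes from number 44 -/
def cB3_44 : List Nat := bB3_44 ++ cB3_45

lemma aB3_44 (hC : ∀ z φ, H z φ → Cf z φ) (hd : ∀ L D r, Pool.Agent.Helper66.Kiss.DlG.dlH L 0 D r = true → Good H P L 0) : AGX H P cB3_44 :=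
  AGX_append (soundLP ctB_OKL hC hd tB3_44) (aB3_45 hC hd)

/-- boxes from number 43 -/
def cB3_43 : List Nat := bB3_43 ++ cB3_44

lemma aB3_43 (hC : ∀ z φ, H z φ → Cf z φ) (hd : ∀ L D r, Pool.Agent.Helper66.Kiss.DlG.dlH L 0 D r = true → Good H P L 0) : AGX H P cB3_43 :=
  AGX_append (soundLP ctB_OKL hC hd tB3_43) (aB3_44 hC hd)

/-- boxes from number 42 -/
def cB3_42 : List Nat := bB3_42 ++ cB3_43

lemma aB3_42 (hC : ∀ z φ, H z φ → Cf z φ) (hd : ∀ L D r, Pool.Agent.Helper66.Kiss.DlG.dlH L 0 D r = true → Good H P L 0) : AGX H P cB3_42 :=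
  AGX_append (soundLP ctB_OKL hC hd tB3_42) (aB3_43 hC hd)

/-- boxes from number 41 -/
def cB3_41 : List Nat := bB3_41 ++ cB3_42

lemma aB3_41 (hC : ∀ z φ, H z φ → Cf z φ) (hd : ∀ L D r, Pool.Agent.Helper66.Kiss.DlG.dlH L 0 D r = true → Good H P L 0) : AGX H P cB3_41 :=
  AGX_append (soundLP ctB_OKL hC hd tB3_41) (aB3_42 hC hd)

/-- boxes from number 40 -/
def cB3_40 : List Nat := bB3_40 ++ cB3_41

lemma aB3_40 (hC : ∀ z φ, H z φ → Cf z φ) (hd : ∀ L D r, Pool.Agent.Helper66.Kiss.DlG.dlH L 0 D r = true → Good H P L 0) : AGX H P cB3_40 :=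
  AGX_append (soundLP ctB_OKL hC hd tB3_40) (aB3_41 hC hd)

/-- boxes from number 39 -/
def cB3_39 : List Nat := bB3_39 ++ cB3_40

lemma aB3_39 (hC : ∀ z φ, H z φ → Cf z φ) (hd : ∀ L D r, Pool.Agent.Helper66.Kiss.DlG.dlH L 0 D r = true → Good H P L 0) : AGX H P cB3_39 :=
  AGX_append (soundLP ctB_OKL hC hd tB3_39) (aB3_40 hC hd)

/-- boxes from number 38 -/
def cB3_38 : List Nat := bB3_38 ++ cB3_39

lemma aB3_38 (hC : ∀ z φ, H z φ → Cf z φ) (hd : ∀ L D r, Pool.Agent.Helper66.Kiss.DlG.dlH L 0 D r = true → Good H P L 0) : AGX H P cB3_38 :=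
  AGX_append (soundLP ctB_OKL hC hd tB3_38) (aB3_39 hC hd)

/-- boxes from number 37 -/
def cB3_37 : List Nat := bB3_37 ++ cB3_38

lemma aB3_37 (hC : ∀ z φ, H z φ → Cf z φ) (hd : ∀ L D r, Pool.Agent.Helper66.Kiss.DlG.dlH L 0 D r = true → Good H P L 0) : AGX H P cB3_37 :=
  AGX_append (soundLP ctB_OKL hC hd tB3_37) (aB3_38 hC hd)

/-- boxes from number 36 -/
def cB3_36 : List Nat := bB3_36 ++ cB3_37

lemma aB3_36 (hC : ∀ z φ, H z φ → Cf z φ) (hd : ∀ L D r, Pool.Agent.Helper66.Kiss.DlG.dlH L 0 D r = true → Good H P L 0) : AGX H P cB3_36 :=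
  AGX_append (soundLP ctB_OKL hC hd tB3_36) (aB3_37 hC hd)

/-- boxes from number 35 -/
def cB3_35 : List Nat := bB3_35 ++ cB3_36

lemma aB3_35 (hC : ∀ z φ, H z φ → Cf z φ) (hd : ∀ L D r, Pool.Agent.Helper66.Kiss.DlG.dlH L 0 D r = true → Good H P L 0) : AGX H P cB3_35 :=
  AGX_append (soundLP ctB_OKL hC hd tB3_35) (aB3_36 hC hd)

/-- boxes from number 34 -/
def cB3_34 : List Nat := bB3_34 ++ cB3_35

lemma aB3_34 (hC : ∀ z φ, H z φ → Cf z φ) (hd : ∀ L D r, Pool.Agent.Helper66.Kiss.DlG.dlH L 0 D r = true → Good H P L 0) : AGX H P cB3_34 :=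
  AGX_append (soundLP ctB_OKL hC hd tB3_34) (aB3_35 hC hd)

/-- boxes from number 33 -/
def cB3_33 : List Nat := bB3_33 ++ cB3_34

lemma aB3_33 (hC : ∀ z φ, H z φ → Cf z φ) (hd : ∀ L D r, Pool.Agent.Helper66.Kiss.DlG.dlH L 0 D r = true → Good H P L 0) : AGX H P cB3_33 :=
  AGX_append (soundLP ctB_OKL hC hd tB3_33) (aB3_34 hC hd)

/-- boxes from number 32 -/
def cB3_32 : List Nat := bB3_32 ++ cB3_33

lemma aB3_32 (hC : ∀ z φ, H z φ → Cf z φ) (hd : ∀ L D r, Pool.Agent.Helper66.Kiss.DlG.dlH L 0 D r = true → Good H P L 0) : AGX H P cB3_32 :=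
  AGX_append (soundLP ctB_OKL hC hd tB3_32) (aB3_33 hC hd)

/-- boxes from number 31 -/
def cB3_31 : List Nat := bB3_31 ++ cB3_32

lemma aB3_31 (hC : ∀ z φ, H z φ → Cf z φ) (hd : ∀ L D r, Pool.Agent.Helper66.Kiss.DlG.dlH L 0 D r = true → Good H P L 0) : AGX H P cB3_31 :=
  AGX_append (soundLP ctB_OKL hC hd tB3_31) (aB3_32 hC hd)

/-- boxes from number 30 -/
def cB3_30 : List Nat := bB3_30 ++ cB3_31

lemma aB3_30 (hC : ∀ z φ, H z φ → Cf z φ) (hd : ∀ L D r, Pool.Agent.Helper66.Kiss.DlG.dlH L 0 D r = true → Good H P L 0) : AGX H P cB3_30 :=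
  AGX_append (soundLP ctB_OKL hC hd tB3_30) (aB3_31 hC hd)

/-- boxes from number 29 -/
def cB3_29 : List Nat := bB3_29 ++ cB3_30

lemma aB3_29 (hC : ∀ z φ, H z φ → Cf z φ) (hd : ∀ L D r, Pool.Agent.Helper66.Kiss.DlG.dlH L 0 D r = true → Good H P L 0) : AGX H P cB3_29 :=
  AGX_append (soundLP ctB_OKL hC hd tB3_29) (aB3_30 hC hd)

/-- boxes from number 28 -/
def cB3_28 : List Nat := bB3_28 ++ cB3_29

lemma aB3_28 (hC : ∀ z φ, H z φ → Cf z φ) (hd : ∀ L D r, Pool.Agent.Helper66.Kiss.DlG.dlH L 0 D r = true → Good H P L 0) : AGX H P cB3_28 :=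
  AGX_append (soundLP ctB_OKL hC hd tB3_28) (aB3_29 hC hd)

/-- boxes from number 27 -/
def cB3_27 : List Nat := bB3_27 ++ cB3_28

lemma aB3_27 (hC : ∀ z φ, H z φ → Cf z φ) (hd : ∀ L D r, Pool.Agent.Helper66.Kiss.DlG.dlH L 0 D r = true → Good H P L 0) : AGX H P cB3_27 :=
  AGX_append (soundLP ctB_OKL hC hd tB3_27) (aB3_28 hC hd)

/-- boxes from number 26 -/
def cB3_26 : List Nat := bB3_26 ++ cB3_27

lemma aB3_26 (hC : ∀ z φ, H z φ → Cf z φ) (hd : ∀ L D r, Pool.Agent.Helper66.Kiss.DlG.dlH L 0 D r = true → Good H P L 0) : AGX H P cB3_26 :=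
  AGX_append (soundLP ctB_OKL hC hd tB3_26) (aB3_27 hC hd)

/-- boxes from number 25 -/
def cB3_25 : List Nat := bB3_25 ++ cB3_26

lemma aB3_25 (hC : ∀ z φ, H z φ → Cf z φ) (hd : ∀ L D r, Pool.Agent.Helper66.Kiss.DlG.dlH L 0 D r = true → Good H P L 0) : AGX H P cB3_25 :=
  AGX_append (soundLP ctB_OKL hC hd tB3_25) (aB3_26 hC hd)

/-- boxes from number 24 -/
def cB3_24 : List Nat := bB3_24 ++ cB3_25

lemma aB3_24 (hC : ∀ z φ, H z φ → Cf z φ) (hd : ∀ L D r, Pool.Agent.Helper66.Kiss.DlG.dlH L 0 D r = true → Good H P L 0) : AGX H P cB3_24 :=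
  AGX_append (soundLP ctB_OKL hC hd tB3_24) (aB3_25 hC hd)

/-- boxes from number 23 -/
def cB3_23 : List Nat := bB3_23 ++ cB3_24

lemma aB3_23 (hC : ∀ z φ, H z φ → Cf z φ) (hd : ∀ L D r, Pool.Agent.Helper66.Kiss.DlG.dlH L 0 D r = true → Good H P L 0) : AGX H P cB3_23 :=
  AGX_append (soundLP ctB_OKL hC hd tB3_23) (aB3_24 hC hd)

/-- boxes from number 22 -/
def cB3_22 : List Nat := bB3_22 ++ cB3_23

lemma aB3_22 (hC : ∀ z φ, H z φ → Cf z φ) (hd : ∀ L D r, Pool.Agent.Helper66.Kiss.DlG.dlH L 0 D r = true → Good H P L 0) : AGX H P cB3_22 :=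
  AGX_append (soundLP ctB_OKL hC hd tB3_22) (aB3_23 hC hd)

/-- boxes from number 21 -/
def cB3_21 : List Nat := bB3_21 ++ cB3_22

lemma aB3_21 (hC : ∀ z φ, H z φ → Cf z φ) (hd : ∀ L D r, Pool.Agent.Helper66.Kiss.DlG.dlH L 0 D r = true → Good H P L 0) : AGX H P cB3_21 :=
  AGX_append (soundLP ctB_OKL hC hd tB3_21) (aB3_22 hC hd)

/-- boxes from number 20 -/
def cB3_20 : List Nat := bB3_20 ++ cB3_21

lemma aB3_20 (hC : ∀ z φ, H z φ → Cf z φ) (hd : ∀ L D r, Pool.Agent.Helper66.Kiss.DlG.dlH L 0 D r = true → Good H P L 0) : AGX H P cB3_20 :=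
  AGX_append (soundLP ctB_OKL hC hd tB3_20) (aB3_21 hC hd)

/-- boxes from number 19 -/
def cB3_19 : List Nat := bB3_19 ++ cB3_20

lemma aB3_19 (hC : ∀ z φ, H z φ → Cf z φ) (hd : ∀ L D r, Pool.Agent.Helper66.Kiss.DlG.dlH L 0 D r = true → Good H P L 0) : AGX H P cB3_19 :=
  AGX_append (soundLP ctB_OKL hC hd tB3_19) (aB3_20 hC hd)

/-- boxes from number 18 -/
def cB3_18 : List Nat := bB3_18 ++ cB3_19

lemma aB3_18 (hC : ∀ z φ, H z φ → Cf z φ) (hd : ∀ L D r, Pool.Agent.Helper66.Kiss.DlG.dlH L 0 D r = true → Good H P L 0) : AGX H P cB3_18 :=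
  AGX_append (soundLP ctB_OKL hC hd tB3_18) (aB3_19 hC hd)

/-- boxes from number 17 -/
def cB3_17 : List Nat := bB3_17 ++ cB3_18

lemma aB3_17 (hC : ∀ z φ, H z φ → Cf z φ) (hd : ∀ L D r, Pool.Agent.Helper66.Kiss.DlG.dlH L 0 D r = true → Good H P L 0) : AGX H P cB3_17 :=
  AGX_append (soundLP ctB_OKL hC hd tB3_17) (aB3_18 hC hd)

/-- boxes from number 16 -/
def cB3_16 : List Nat := bB3_16 ++ cB3_17

lemma aB3_16 (hC : ∀ z φ, H z φ → Cf z φ) (hd : ∀ L D r, Pool.Agent.Helper66.Kiss.DlG.dlH L 0 D r = true → Good H P L 0) : AGX H P cB3_16 :=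
  AGX_append (soundLP ctB_OKL hC hd tB3_16) (aB3_17 hC hd)

/-- boxes from number 15 -/
def cB3_15 : List Nat := bB3_15 ++ cB3_16

lemma aB3_15 (hC : ∀ z φ, H z φ → Cf z φ) (hd : ∀ L D r, Pool.Agent.Helper66.Kiss.DlG.dlH L 0 D r = true → Good H P L 0) : AGX H P cB3_15 :=
  AGX_append (soundLP ctB_OKL hC hd tB3_15) (aB3_16 hC hd)

/-- boxes from number 14 -/
def cB3_14 : List Nat := bB3_14 ++ cB3_15

lemma aB3_14 (hC : ∀ z φ, H z φ → Cf z φ) (hd : ∀ L D r, Pool.Agent.Helper66.Kiss.DlG.dlH L 0 D r = true → Good H P L 0) : AGX H P cB3_14 :=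
  AGX_append (soundLP ctB_OKL hC hd tB3_14) (aB3_15 hC hd)

/-- boxes from number 13 -/
def cB3_13 : List Nat := bB3_13 ++ cB3_14

lemma aB3_13 (hC : ∀ z φ, H z φ → Cf z φ) (hd : ∀ L D r, Pool.Agent.Helper66.Kiss.DlG.dlH L 0 D r = true → Good H P L 0) : AGX H P cB3_13 :=
  AGX_append (soundLP ctB_OKL hC hd tB3_13) (aB3_14 hC hd)

/-- boxes from number 12 -/
def cB3_12 : List Nat := bB3_12 ++ cB3_13

lemma aB3_12 (hC : ∀ z φ, H z φ → Cf z φ) (hd : ∀ L D r, Pool.Agent.Helper66.Kiss.DlG.dlH L 0 D r = true → Good H P L 0) : AGX H P cB3_12 :=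
  AGX_append (soundLP ctB_OKL hC hd tB3_12) (aB3_13 hC hd)

/-- boxes from number 11 -/
def cB3_11 : List Nat := bB3_11 ++ cB3_12

lemma aB3_11 (hC : ∀ z φ, H z φ → Cf z φ) (hd : ∀ L D r, Pool.Agent.Helper66.Kiss.DlG.dlH L 0 D r = true → Good H P L 0) : AGX H P cB3_11 :=
  AGX_append (soundLP ctB_OKL hC hd tB3_11) (aB3_12 hC hd)

/-- boxes from number 10 -/
def cB3_10 : List Nat := bB3_10 ++ cB3_11

lemma aB3_10 (hC : ∀ z φ, H z φ → Cf z φ) (hd : ∀ L D r, Pool.Agent.Helper66.Kiss.DlG.dlH L 0 D r = true → Good H P L 0) : AGX H P cB3_10 :=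
  AGX_append (soundLP ctB_OKL hC hd tB3_10) (aB3_11 hC hd)

/-- boxes from number 9 -/
def cB3_9 : List Nat := bB3_9 ++ cB3_10

lemma aB3_9 (hC : ∀ z φ, H z φ → Cf z φ) (hd : ∀ L D r, Pool.Agent.Helper66.Kiss.DlG.dlH L 0 D r = true → Good H P L 0) : AGX H P cB3_9 :=
  AGX_append (soundLP ctB_OKL hC hd tB3_9) (aB3_10 hC hd)

/-- boxes from number 8 -/
def cB3_8 : List Nat := bB3_8 ++ cB3_9

lemma aB3_8 (hC : ∀ z φ, H z φ → Cf z φ) (hd : ∀ L D r, Pool.Agent.Helper66.Kiss.DlG.dlH L 0 D r = true → Good H P L 0) : AGX H P cB3_8 :=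
  AGX_append (soundLP ctB_OKL hC hd tB3_8) (aB3_9 hC hd)

/-- boxes from number 7 -/
def cB3_7 : List Nat := bB3_7 ++ cB3_8

lemma aB3_7 (hC : ∀ z φ, H z φ → Cf z φ) (hd : ∀ L D r, Pool.Agent.Helper66.Kiss.DlG.dlH L 0 D r = true → Good H P L 0) : AGX H P cB3_7 :=
  AGX_append (soundLP ctB_OKL hC hd tB3_7) (aB3_8 hC hd)

/-- boxes from number 6 -/
def cB3_6 : List Nat := bB3_6 ++ cB3_7

lemma aB3_6 (hC : ∀ z φ, H z φ → Cf z φ) (hd : ∀ L D r, Pool.Agent.Helper66.Kiss.DlG.dlH L 0 D r = true → Good H P L 0) : AGX H P cB3_6 :=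
  AGX_append (soundLP ctB_OKL hC hd tB3_6) (aB3_7 hC hd)

/-- boxes from number 5 -/
def cB3_5 : List Nat := bB3_5 ++ cB3_6

lemma aB3_5 (hC : ∀ z φ, H z φ → Cf z φ) (hd : ∀ L D r, Pool.Agent.Helper66.Kiss.DlG.dlH L 0 D r = true → Good H P L 0) : AGX H P cB3_5 :=
  AGX_append (soundLP ctB_OKL hC hd tB3_5) (aB3_6 hC hd)

/-- boxes from number 4 -/
def cB3_4 : List Nat := bB3_4 ++ cB3_5

lemma aB3_4 (hC : ∀ z φ, H z φ → Cf z φ) (hd : ∀ L D r, Pool.Agent.Helper66.Kiss.DlG.dlH L 0 D r = true → Good H P L 0) : AGX H P cB3_4 :=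
  AGX_append (soundLP ctB_OKL hC hd tB3_4) (aB3_5 hC hd)

/-- boxes from number 3 -/
def cB3_3 : List Nat := bB3_3 ++ cB3_4

lemma aB3_3 (hC : ∀ z φ, H z φ → Cf z φ) (hd : ∀ L D r, Pool.Agent.Helper66.Kiss.DlG.dlH L 0 D r = true → Good H P L 0) : AGX H P cB3_3 :=
  AGX_append (soundLP ctB_OKL hC hd tB3_3) (aB3_4 hC hd)

/-- boxes from number 2 -/
def cB3_2 : List Nat := bB3_2 ++ cB3_3

lemma aB3_2 (hC : ∀ z φ, H z φ → Cf z φ) (hd : ∀ L D r, Pool.Agent.Helper66.Kiss.DlG.dlH L 0 D r = true → Good H P L 0) : AGX H P cB3_2 :=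
  AGX_append (soundLP ctB_OKL hC hd tB3_2) (aB3_3 hC hd)

/-- boxes from number 1 -/
def cB3_1 : List Nat := bB3_1 ++ cB3_2

lemma aB3_1 (hC : ∀ z φ, H z φ → Cf z φ) (hd : ∀ L D r, Pool.Agent.Helper66.Kiss.DlG.dlH L 0 D r = true → Good H P L 0) : AGX H P cB3_1 :=
  AGX_append (soundLP ctB_OKL hC hd tB3_1) (aB3_2 hC hd)

/-- boxes from number 0 -/
def cB3_0 : List Nat := bB3_0 ++ cB3_1

lemma aB3_0 (hC : ∀ z φ, H z φ → Cf z φ) (hd : ∀ L D r, Pool.Agent.Helper66.Kiss.DlG.dlH L 0 D r = true → Good H P L 0) : AGX H P cB3_0 :=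
  AGX_append (soundLP ctB_OKL hC hd tB3_0) (aB3_1 hC hd)

theorem topB3 : KL.runX KL.ctB (KL.dlX cB3_0) (KL.dec 6 0x9360092e0092605820058180091e009160090e05830009060582805820008fe008f605828008ee058200581805810008e6008de008d60583005828008ce008c6008be008b60584805840008ae0583805830008a60089e0089605840058380088e058300582805820008860087e00876058400086e0583805830008660085e0085605848058400084e008460083e08e10008360082e08e200082605e500081e05e2000816063100080e0633001f4800806007fe08e10007f605e10007ee06350007e606320007de007d608e40007ce05e40007c608e10007be06320007b606530007ae0655001f4801f38007a60079e08e500079605e500078e0619000786063400077e007760076e007660075e08e4000756065d0052980074e065300074606f100073e06b2004a3808e500073605fd00072e05fa00072605fc00071e05fb0007160669001f480070e0070608e20006fe06540006f605e30006ee06520006e6006de08e50006d6066d0006ce06330006c6066a0006be07a1001f48006b605e10006ae061d0006a605fc001f3801f280069e0069608e400068e0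5e100068605fc00067e0633000676063500066e006660065e006560064e006460063e08e10052a800636066d00062e065a0052b8046880062606f300061e06a4004c8808e2000616061d00060e05fa00060605e40005fe05f90005f6066b001f48005ee005e6005de005d6005ce08e20005c606510052c8005be070d0005b606b400492808e10005ae066d0005a605fc00059e061b00059605fa00058e05e10005860057e08e1000576065500056e05e200056605e100055e05e40005560653001f480054e05fd001f38005460053e08e100053605e200052e0653000526063500051e06540005160050e0050608e10004fe066d0004f6066c008e20004ee06510004e606530004de05e50004d605e40004ce05e2001f48004c605f90004be05e30004b6004ae08e10004a607a500049e0669000496063200048e0633000486066c00047e01f4800476061900046e075d001f3801f2801f18004660045e08e300045605e500044e0634000446063200043e05fb0004360042e08e500042605e500041e08e3000416065200040e06540004060651001f48003fe003f6003ee003e6003de003d608e40003ce065b00474805298003c606f20003be06550003b60699004b4808e30003ae05fb0003a605f900039e05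fc00039605fd00038e066a0003860037e08e1000376063400036e0635000366066b00035e06690003560792001f4801f380034e003460033e003360032e0032608e100031e065d0052b8047180031606f400030e065200030606b3004c9808e50002fe066c0002f605fd0002ee05fa0002e605fb0002de05f90002d6002ce08e20002c606540002be05e20002b605e30002ae05e50002a60651001f480029e05fc0002960028e08e1000286065200027e05e500027605e300026e05e1000266065400025e0025608e400024e08e3000246076a00023e0751001f480023605fa001f3801f280022e0022608e500021e05e1000216065300020e0652000206001fe08e20001f6066c0001ee06310001e6066a0001de0793001f48001d605fd0001ce061c0001c6001be001b608e50001ae066c0001a6066b008e100019e05e400019605e300018e065200018605e100017e06550001760016e08e400016608e100015e076a000156075b001f480014e05fa001f38001460013e08e3000136066b00012e079c000126063200011e0631000116066d00010e0010608e10000fe0763001f48000f6061b0000ee000e6000de01f48000d605e2005048000ce01848000c60745001f38000be0744001f2801f1801f08000b60585005848000ae0584005838000a60009e05840000960583805830058280008e000860007e0584005838000760006e0583805830000660582805820058180005e000560004e058380004605830058280003e000360002e058400002605838058300001e0582805820000160000e0582800006058200581805810058080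 List.nil) 0x180007c0180007c0180007c0180007c0180007c0180007c0180007c0180007c0180007c0180007c0802480123408926d [] 0 = true := by decide +kernel

/-- the root box -/
theorem rootB3 (hC : ∀ z φ, H z φ → Cf z φ) (hd : ∀ L D r, Pool.Agent.Helper66.Kiss.DlG.dlH L 0 D r = true → Good H P L 0) :
    GoodX H P 0x180007c0180007c0180007c0180007c0180007c0180007c0180007c0180007c0180007c0180007c0802480123408926d :=
  soundLT ctB_OKL hC (aB3_0 hC hd) topB3

end Pool.Agent.Helper54.KB
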